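import Pool.Agent.Helper89.KN.Spec

/-! Part SL of the KN project: area of the collar of a set of diameter at least `2 δ`. -/

open MeasureTheory Set Filter Topology
open scoped ENNReal

noncomputable section

namespace KN

namespace SLPart

/-- area by vertical slices -/
theorem volume_slice {S : Set ℂ} (hS : MeasurableSet S) :
    volume S = ∫⁻ x : ℝ, volume {y : ℝ | (⟨x, y⟩ : ℂ) ∈ S} := by
  have h1 : volume (Complex.measurableEquivRealProd.symm ⁻¹' S) = volume S :=
    Complex.volume_preserving_equiv_real_prod.symm.measure_preimage hS.nullMeasurableSet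
  rw [← h1, Measure.volume_eq_prod, Measure.prod_apply
    (Complex.measurableEquivRealProd.symm.measurable hS)]
  rfl

theorem slice_ball (v : ℂ) (δ x y : ℝ) (h : (⟨x, y⟩ : ℂ) ∈ Metric.ball v δ) :
    |x - v.re| < δ ∧ |y - v.im| < δ := by
  rw [Metric.mem_ball, Complex.dist_eq] at h
  constructor
  · exact lt_of_le_of_lt (by simpa using Complex.abs_re_le_norm ((⟨x, y⟩ : ℂ) - v)) h
  · exact lt_of_le_of_lt (by simpa using Complex.abs_im_le_norm ((⟨x, y⟩ : ℂ) - v)) h

theorem measurableSet_collar {R : Set ℂ} (hR : IsCompact R) (δ : ℝ) :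
    MeasurableSet (collar R δ) := by
  unfold collar
  have h1 : MeasurableSet {z : ℂ | z ∉ R} := hR.isClosed.measurableSet.compl
  have h2 : MeasurableSet {z : ℂ | Metric.infDist z R < δ} :=
    measurableSet_lt (Metric.continuous_infDist_pt R).measurable measurable_const
  exact h1.inter h2

theorem slice_bound {R : Set ℂ} (hR : IsCompact R) {δ : ℝ} (hδ : 0 < δ) {v1 v2 : ℂ}
    (h1 : v1 ∈ R) (h2 : v2 ∈ R) (h12 : 2 * δ ≤ v2.re - v1.re) (x : ℝ) :
    volume {y : ℝ | (⟨x, y⟩ : ℂ) ∈ Metric.ball v1 δ} +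
      volume {y : ℝ | (⟨x, y⟩ : ℂ) ∈ Metric.ball v2 δ} ≤
      volume {y : ℝ | (⟨x, y⟩ : ℂ) ∈ collar R δ} := by
  have hempty : {y : ℝ | (⟨x, y⟩ : ℂ) ∈ Metric.ball v1 δ} = ∅ ∨
      {y : ℝ | (⟨x, y⟩ : ℂ) ∈ Metric.ball v2 δ} = ∅ := by
    by_contra hcon
    push Not at hcon
    obtain ⟨⟨y1, hy1⟩, ⟨y2, hy2⟩⟩ := hcon
    have e1 := abs_lt.1 (slice_ball v1 δ x y1 hy1).1
    have e2 := abs_lt.1 (slice_ball v2 δ x y2 hy2).1
    linarith [e1.1, e1.2, e2.1, e2.2]
  by_cases hx : ∃ y : ℝ, (⟨x, y⟩ : ℂ) ∈ R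
  · -- slice of R nonempty
    have hslice : ∀ v : ℂ, volume {y : ℝ | (⟨x, y⟩ : ℂ) ∈ Metric.ball v δ} ≤
        ENNReal.ofReal (2 * δ) := by
      intro v
      have hsub : {y : ℝ | (⟨x, y⟩ : ℂ) ∈ Metric.ball v δ} ⊆ Ioo (v.im - δ) (v.im + δ) := by
        intro y hy
        have := abs_lt.1 (slice_ball v δ x y hy).2
        exact ⟨by linarith [this.1], by linarith [this.2]⟩
      refine (measure_mono hsub).trans ?_
      rw [Real.volume_Ioo]
      apply ENNReal.ofReal_le_ofReal
      linarith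
    have hsum : volume {y : ℝ | (⟨x, y⟩ : ℂ) ∈ Metric.ball v1 δ} +
        volume {y : ℝ | (⟨x, y⟩ : ℂ) ∈ Metric.ball v2 δ} ≤ ENNReal.ofReal (2 * δ) := by
      rcases hempty with h | h
      · rw [h, measure_empty, zero_add]
        exact hslice v2
      · rw [h, measure_empty, add_zero]
        exact hslice v1
    refine hsum.trans ?_
    -- extreme points of the slice
    have hcont : Continuous (fun y : ℝ => (⟨x, y⟩ : ℂ)) := by
      have : (fun y : ℝ => (⟨x, y⟩ : ℂ)) = fun y : ℝ => (x : ℂ) + (y : ℂ) * Complex.I := by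
        ext y
        apply Complex.ext <;> simp
      rw [this]
      fun_prop
    have hdist : ∀ y y' : ℝ, dist (⟨x, y⟩ : ℂ) ⟨x, y'⟩ = |y - y'| := by
      intro y y'
      rw [Complex.dist_eq]
      have : ((⟨x, y⟩ : ℂ) - ⟨x, y'⟩) = ((y - y' : ℝ) : ℂ) * Complex.I := by
        apply Complex.ext <;> simp
      rw [this, norm_mul, Complex.norm_I, mul_one, Complex.norm_real, Real.norm_eq_abs]
    have hcomp : IsCompact {y : ℝ | (⟨x, y⟩ : ℂ) ∈ R} := by
      have hcl : IsClosed {y : ℝ | (⟨x, y⟩ : ℂ) ∈ R} := hR.isClosed.preimage hcont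
      have him : {y : ℝ | (⟨x, y⟩ : ℂ) ∈ R} ⊆ Complex.im '' R := by
        intro y hy
        exact ⟨_, hy, rfl⟩
      exact (hR.image Complex.continuous_im).of_isClosed_subset hcl him
    obtain ⟨ya, hya, hyamin⟩ := hcomp.exists_isLeast hx
    obtain ⟨yb, hyb, hybmax⟩ := hcomp.exists_isGreatest hx
    have hab : ya ≤ yb := hyamin hyb
    have hsub : Ioo (ya - δ) ya ∪ Ioo yb (yb + δ) ⊆ {y : ℝ | (⟨x, y⟩ : ℂ) ∈ collar R δ} := by
      intro y hy
      rcases hy with hy | hy
      · refine ⟨fun hyR => ?_, ?_⟩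
        · have := hyamin (show y ∈ {y : ℝ | (⟨x, y⟩ : ℂ) ∈ R} from hyR)
          exact absurd hy.2 (not_lt.2 this)
        · refine lt_of_le_of_lt (Metric.infDist_le_dist_of_mem hya) ?_
          rw [hdist, abs_lt]
          exact ⟨by linarith [hy.1], by linarith [hy.2]⟩
      · refine ⟨fun hyR => ?_, ?_⟩
        · have := hybmax (show y ∈ {y : ℝ | (⟨x, y⟩ : ℂ) ∈ R} from hyR)
          exact absurd hy.1 (not_lt.2 this)
        · refine lt_of_le_of_lt (Metric.infDist_le_dist_of_mem hyb) ?_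
          rw [hdist, abs_lt]
          exact ⟨by linarith [hy.1], by linarith [hy.2]⟩
    refine le_trans ?_ (measure_mono hsub)
    rw [measure_union _ measurableSet_Ioo, Real.volume_Ioo, Real.volume_Ioo,
      ← ENNReal.ofReal_add (by linarith) (by linarith)]
    · apply ENNReal.ofReal_le_ofReal
      linarith
    · rw [Set.disjoint_left]
      intro y hy hy'
      linarith [hy.2, hy'.1]
  · push Not at hx
    have hsub : ∀ v ∈ R, {y : ℝ | (⟨x, y⟩ : ℂ) ∈ Metric.ball v δ} ⊆
        {y : ℝ | (⟨x, y⟩ : ℂ) ∈ collar R δ} := by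
      intro v hv y hy
      exact ⟨hx y, lt_of_le_of_lt (Metric.infDist_le_dist_of_mem hv) hy⟩
    rcases hempty with h | h
    · rw [h, measure_empty, zero_add]
      exact measure_mono (hsub v2 h2)
    · rw [h, measure_empty, add_zero]
      exact measure_mono (hsub v1 h1)

theorem main_horizontal {R : Set ℂ} (hR : IsCompact R) {δ : ℝ} (hδ : 0 < δ) {v1 v2 : ℂ}
    (h1 : v1 ∈ R) (h2 : v2 ∈ R) (h12 : 2 * δ ≤ v2.re - v1.re) :
    ENNReal.ofReal (2 * Real.pi * δ ^ 2) ≤ volume (collar R δ) := by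
  have hb : ∀ v : ℂ, volume (Metric.ball v δ) = ENNReal.ofReal (Real.pi * δ ^ 2) := by
    intro v
    rw [Complex.volume_ball]
    rw [mul_comm Real.pi, ENNReal.ofReal_mul (by positivity), ENNReal.ofReal_pow hδ.le]
    congr 1
    rw [← NNReal.coe_real_pi, ENNReal.ofReal_coe_nnreal]
  have e : ENNReal.ofReal (2 * Real.pi * δ ^ 2) =
      volume (Metric.ball v1 δ) + volume (Metric.ball v2 δ) := by
    rw [hb, hb, ← ENNReal.ofReal_add (by positivity) (by positivity)]
    congr 1
    ring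
  rw [e, volume_slice measurableSet_ball, volume_slice (S := Metric.ball v2 δ) measurableSet_ball,
    volume_slice (measurableSet_collar hR δ)]
  rw [← lintegral_add_left']
  · exact lintegral_mono (fun x => slice_bound hR hδ h1 h2 h12 x)
  · have : MeasurableSet (Complex.measurableEquivRealProd.symm ⁻¹' (Metric.ball v1 δ)) :=
      Complex.measurableEquivRealProd.symm.measurable measurableSet_ball
    exact (measurable_measure_prodMk_left (ν := (volume : Measure ℝ)) this).aemeasurable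

theorem collar_image (T : ℂ ≃ᵢ ℂ) (R : Set ℂ) (δ : ℝ) :
    collar (T '' R) δ = T '' (collar R δ) := by
  ext z
  constructor
  · rintro ⟨hz1, hz2⟩
    refine ⟨T.symm z, ⟨?_, ?_⟩, by simp⟩
    · intro hc
      exact hz1 ⟨T.symm z, hc, by simp⟩
    · have : Metric.infDist (T (T.symm z)) (T '' R) = Metric.infDist (T.symm z) R :=
        Metric.infDist_image T.isometry
      rw [T.apply_symm_apply] at this
      rw [← this]
      exact hz2
  · rintro ⟨w, ⟨hw1, hw2⟩, rfl⟩
    refine ⟨?_, ?_⟩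
    · rintro ⟨w', hw', he⟩
      exact hw1 (T.injective he ▸ hw')
    · rw [Metric.infDist_image T.isometry]
      exact hw2

end SLPart

open SLPart in
theorem sl_thm : S_SL := by
  intro R p q δ hR hp hq hδ hpq
  have hpq' : 0 < dist p q := by linarith
  have hne : q - p ≠ 0 := by
    intro h
    rw [sub_eq_zero] at h
    rw [h, dist_self] at hpq'
    exact lt_irrefl _ hpq'
  have hn : ‖q - p‖ = dist p q := by rw [dist_comm, Complex.dist_eq]
  have hn0 : ‖q - p‖ ≠ 0 := norm_ne_zero_iff.2 hne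
  -- the rotation
  set u : ℂ := (starRingEnd ℂ) (q - p) / (‖q - p‖ : ℂ) with hu
  have hun : ‖u‖ = 1 := by
    rw [hu, norm_div, RCLike.norm_conj, Complex.norm_real, Real.norm_eq_abs, abs_of_nonneg
      (norm_nonneg _)]
    exact div_self hn0
  let c : Circle := ⟨u, by rw [Submonoid.unitSphere, ← SetLike.mem_coe]; simpa using hun⟩
  let T : ℂ ≃ₗᵢ[ℝ] ℂ := rotation c
  have hT : ∀ z, T z = u * z := fun z => by
    show rotation c z = u * z
    rw [rotation_apply]
  have hmp : MeasurePreserving T volume volume := T.measurePreserving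
  have hcol : volume (collar R δ) = volume (collar (T '' R) δ) := by
    have h1 : collar (T '' R) δ = T '' (collar R δ) := collar_image T.toIsometryEquiv R δ
    rw [h1]
    have h2 : T ⁻¹' (T '' (collar R δ)) = collar R δ := Set.preimage_image_eq _ T.injective
    have hm : MeasurableSet (T '' (collar R δ)) := by
      rw [← h1]
      exact measurableSet_collar (hR.image T.continuous) δ
    rw [← hmp.measure_preimage hm.nullMeasurableSet, h2]
  rw [hcol]
  refine main_horizontal (hR.image T.continuous) hδ (v1 := T p) (v2 := T q) ⟨p, hp, rfl⟩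
    ⟨q, hq, rfl⟩ ?_
  have h3 : T q - T p = (‖q - p‖ : ℂ) := by
    rw [hT, hT, ← mul_sub, hu, div_mul_eq_mul_div, mul_comm, Complex.mul_conj,
      Complex.normSq_eq_norm_sq]
    have : (‖q - p‖ : ℂ) ≠ 0 := by exact_mod_cast hn0
    rw [div_eq_iff this]
    push_cast
    ring
  have h4 : (T q).re - (T p).re = ‖q - p‖ := by
    rw [← Complex.sub_re, h3, Complex.ofReal_re]
  rw [h4, hn]
  exact hpq

end KN
end
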